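import Pool.Agent.SRL.Stmt

/-!
# Vector bundles on the complement of the incidence divisor: the case `dim V = 2`

`k` a field, `V = k^2`, `U` the complement of `q = x_0 y_0 + x_1 y_1 = 0` in `P(V) x P(V*)`; `U` is affine with ring of functions `OU k 1` (generated by the `x_i y_j / q`), and a vector bundle on
`U` is a finite projective module over `OU k 1`.  The sections of `p_1^* O(i)` over `U` are the quotients `g / q^m`, `g` bihomogeneous of bidegree `(m + i, m)` (`IsTw k 1 i`).

The theorem: every vector bundle on `U` is a direct sum of the line bundles `p_1^* O(i)`; so `p_1^*` is surjective for `dim V = 2`.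
-/

set_option autoImplicit false

namespace Pool.Agent.Results.MP_2854ef_ag.DimTwo

open Pool.Agent.SR

universe u v

theorem result (k : Type u) [Field k] (E : Type v) [AddCommGroup E] [Module (OU k 1) E] [Module.Finite (OU k 1) E] [Module.Projective (OU k 1) E] :
    ∃ (r : ℕ) (a : Fin r → ℤ) (φ : E → Fin r → FractionRing (MvPolynomial (Fin (1 + 1) ⊕ Fin (1 + 1)) k)), (∀ x y, φ (x + y) = φ x + φ y) ∧
      (∀ (b : OU k 1) (x : E), φ (b • x) = (b : FractionRing (MvPolynomial (Fin (1 + 1) ⊕ Fin (1 + 1)) k)) • φ x) ∧ Function.Injective φ ∧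
      ∀ w, (∀ i, IsTw k 1 (a i) (w i)) ↔ ∃ x, φ x = w :=
  Pool.Agent.SRL.stmt E

end Pool.Agent.Results.MP_2854ef_ag.DimTwo
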