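import Pool.Agent.SR.Stmt

/-!
# Vector bundles on the complement of the incidence divisor: the stable range

`k` a field, `V = k^(n+1)`, `U` the complement of `q = x_0 y_0 + ... + x_n y_n = 0` in `P(V) x P(V*)`; `U` is affine with ring of functions `OU k n` (generated by the `x_i y_j / q`), and a vector
bundle on `U` is a finite projective module over `OU k n`.  The sections of `p_1^* O(i)` over `U` are the quotients `g / q^m`, `g` bihomogeneous of bidegree `(m + i, m)` (`IsTw k n i`).
`Bun k n` is a matrix of forms in `x_0, ..., x_n` which is a surjection of sums of line bundles on `P^n`; its kernel `F` is a vector bundle on `P^n`, and `Bun.Sec` are the sections of `p_1^* F`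
over `U`.

The theorem: every vector bundle on `U` whose rank is greater than `dim U = 2 n` is the pull-back of such a kernel `F`.
-/

set_option autoImplicit false

namespace Pool.Agent.Results.MP_2854ef_ag.StableRange

open Pool.Agent.SR MvPolynomial

universe u v

theorem result (k : Type u) [Field k] (n : ℕ) (E : Type v) [AddCommGroup E] [Module (OU k n) E] [Module.Finite (OU k n) E] [Module.Projective (OU k n) E]
    (hE : ∀ p : PrimeSpectrum (OU k n), 2 * n + 1 ≤ Module.rankAtStalk E p) :
    ∃ (D : Bun k n) (φ : E → Fin D.s → FractionRing (MvPolynomial (Fin (n + 1) ⊕ Fin (n + 1)) k)), (∀ x y, φ (x + y) = φ x + φ y) ∧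
      (∀ (a : OU k n) (x : E), φ (a • x) = (a : FractionRing (MvPolynomial (Fin (n + 1) ⊕ Fin (n + 1)) k)) • φ x) ∧ Function.Injective φ ∧ ∀ w, D.Sec w ↔ ∃ x, φ x = w :=
  stmt E hE

end Pool.Agent.Results.MP_2854ef_ag.StableRange
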